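import Pool.Agent.X120.Fac.Main

/-!
# Sequences with a multiplicative recurrence: the exceptional indices have density zero
-/

set_option autoImplicit false

open Module Filter

namespace Pool.Agent.X120.Fac

open Pool.Agent.Y916.Om Pool.Agent.Y916.Ari Pool.Agent.Y916.Al Pool.Agent.X120.Rec Pool.Agent.X120.Soft

theorem Bs_alg {q : ℕ} {z : Fin (q + 1) → ℂ} (hz : ∀ t, IsAlgebraic ℚ (z t)) (L : ℕ) :
    ∀ β ∈ Bs z L, β ≠ 0 ∧ IsAlgebraic ℚ β := by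
  classical
  intro β hβ
  obtain ⟨h0, hm⟩ := Finset.mem_erase.1 hβ
  obtain ⟨⟨a, t⟩, -, rfl⟩ := Finset.mem_image.1 hm
  refine ⟨h0, IsAlgebraic.add ?_ ((hz t).sub (hz 0))⟩
  have h1 : ((a : ℕ) : ℂ) = algebraMap ℚ ℂ (a : ℚ) := by simp
  rw [h1]
  exact isAlgebraic_algebraMap _

theorem rareF {m q p : ℕ} (u : ℕ → ℂ) (γ : Fin p → ℂ) (hγ : ∀ j, γ j ≠ 0) (z : Fin (q + 1) → ℂ)
    (hz : ∀ t, IsAlgebraic ℚ (z t)) (hz0 : ∀ t, t ≠ 0 → ∀ i : ℕ, z t ≠ z 0 + i) (n₀ : ℕ) (hu : ∀ n ≥ n₀, u n ≠ 0)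
    (hrec : ∀ n ≥ n₀, ∃ (c : Fin (m + 1) → ℤ) (a : Fin p → ℤ) (e : Fin (q + 1) → ℤ), c (Fin.last m) ≠ 0 ∧ e 0 ≠ 0 ∧
      ∏ i : Fin (m + 1), u (n + i) ^ c i = (∏ j, γ j ^ a j) * ∏ t, ((n : ℂ) + z t) ^ e t) :
    Rare fun n (_ : Unit) => Complex.log (u n) := by
  classical
  set K₁ : IntermediateField ℚ ℂ := IntermediateField.adjoin ℚ {z 0} with hK₁
  have hfd : FiniteDimensional ℚ K₁ := IntermediateField.adjoin.finiteDimensional (hz 0).isIntegral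
  set θ : K₁ := ⟨z 0, IntermediateField.mem_adjoin_simple_self ℚ _⟩ with hθ
  obtain ⟨C, hC⟩ := pt_add K₁ θ
  obtain ⟨R, hR⟩ := exists_nat_ge (2 * ‖z 0‖ + 4 * C + 2)
  set ξ : ℕ → K₁ := fun n => ((n - m : ℕ) : K₁) + θ with hξ
  have hξC : ∀ n, ((ξ n : K₁) : ℂ) = ((n - m : ℕ) : ℂ) + z 0 := fun n => by
    rw [hξ]
    push_cast
    rfl
  have hlow : ∀ n, ((n - m : ℕ) : ℝ) - ‖z 0‖ ≤ ‖(ξ n : ℂ)‖ := by
    intro n
    rw [hξC]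
    have h1 := norm_sub_le_norm_add ((n - m : ℕ) : ℂ) (z 0)
    rwa [Complex.norm_natCast] at h1
  set n₁ := n₀ + m + R with hn₁
  have hbig : ∀ n ≥ n₁, (2 * ‖z 0‖ + 4 * C + 2 : ℝ) ≤ ((n - m : ℕ) : ℝ) := by
    intro n hn
    refine hR.trans ?_
    exact_mod_cast (by omega : R ≤ n - m)
  have hC0 : (0 : ℝ) ≤ C := Nat.cast_nonneg C
  have hz00 := norm_nonneg (z 0)
  have hhalf : ∀ n ≥ n₁, (((n - m : ℕ) : ℝ) + 1) / 2 ≤ ‖(ξ n : ℂ)‖ := by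
    intro n hn
    have h1 := hlow n
    have h2 := hbig n hn
    linarith
  have hne : ∀ n ≥ n₁, ((n - m : ℕ) : ℂ) + z 0 ≠ 0 := by
    intro n hn
    rw [← hξC, ← norm_pos_iff]
    have h1 := hhalf n hn
    have h2 : (0 : ℝ) ≤ ((n - m : ℕ) : ℝ) := Nat.cast_nonneg _
    linarith
  have hkey : ∀ n g, ∃ D : ℂ →₀ ℚ, n₁ ≤ n → 1 ≤ g → D.support ⊆ Bs z g ∧ D (g : ℂ) ≠ 0 ∧
      Complex.log (u (n + g)) - lc (((n - m : ℕ) : ℂ) + z 0) D ∈ W (m := m) u γ z n := by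
    intro n g
    by_cases h : n₁ ≤ n ∧ 1 ≤ g
    · obtain ⟨D, hD⟩ := key u γ z n hγ hz0 n₀ hu hrec (by omega) (hne n h.1) g h.2
      exact ⟨D, fun _ _ => hD⟩
    · exact ⟨0, fun h1 h2 => absurd ⟨h1, h2⟩ h⟩
  choose D hD using hkey
  set τ₀ := Fintype.card (Fin m ⊕ (Fin p ⊕ Bool)) with hτ₀
  refine rare_main (fun n (_ : Unit) => Complex.log (u n)) K₁ ξ ?_ 2 (fun n => C * (((n - m : ℕ) : ℝ) + 1)) n₁
    (fun n hn => ⟨hC _, ?_⟩) τ₀ (fun n g _ => D n g) (Bs z) (Bs_alg hz) (fun L n hn g _ hg hgL => ?_) (fun n hn L => ?_)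
    (fun n hn => ?_)
  · refine tendsto_atTop_mono' atTop (f₁ := fun n : ℕ => ((n : ℝ) - (m + ‖z 0‖))) ?_ ?_
    · filter_upwards [eventually_ge_atTop m] with n hn
      have h1 := hlow n
      rw [Nat.cast_sub hn] at h1
      linarith
    · exact tendsto_atTop_add_const_right _ _ tendsto_natCast_atTop_atTop
  · have h1 := hhalf n hn
    have h2 := hbig n hn
    have h3 : (0 : ℝ) ≤ ((n - m : ℕ) : ℝ) := Nat.cast_nonneg _
    have h4 : (2 * C : ℝ) ≤ (((n - m : ℕ) : ℝ) + 1) / 2 := by linarith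
    calc (C : ℝ) * (((n - m : ℕ) : ℝ) + 1) = 2 * C * ((((n - m : ℕ) : ℝ) + 1) / 2) := by ring
      _ ≤ ((((n - m : ℕ) : ℝ) + 1) / 2) * ((((n - m : ℕ) : ℝ) + 1) / 2) := by gcongr
      _ ≤ ‖(ξ n : ℂ)‖ * ‖(ξ n : ℂ)‖ := by gcongr
      _ = ‖(ξ n : ℂ)‖ ^ 2 := (sq _).symm
  · exact (hD n g hn hg).1.trans (Bs_mono z hgL)
  · have h1 : LinearIndependent ℚ (fun i : Fin L => D n (i + 1)) := by
      refine indep_tri _ (fun i => ((i + 1 : ℕ) : ℂ)) (fun i => (hD n (i + 1) hn (by omega)).2.1) fun i j hij => ?_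
      by_contra h2
      have hij' : (i : ℕ) < j := hij
      exact notMem_Bs hz0 (by omega : (i : ℕ) + 1 < j + 1)
        ((hD n (i + 1) hn (by omega)).1 (Finsupp.mem_support_iff.2 h2))
    exact h1.comp (fun p : Fin L × Unit => p.1) fun a b h => Prod.ext h rfl
  · set eυ : Fin τ₀ ≃ Fin m ⊕ (Fin p ⊕ Bool) := (Fintype.equivFin _).symm with heυ
    refine ⟨ws u γ z n ∘ eυ, fun g hg _ => ?_⟩
    have h1 := (hD n g hn hg).2.2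
    rw [hξC, ← lc_sum]
    refine Submodule.span_mono ?_ h1
    rintro _ ⟨o, rfl⟩
    exact Set.mem_insert_of_mem _ ⟨eυ.symm o, by simp⟩

end Pool.Agent.X120.Fac
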