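import Pool.Agent.X120.Soft.Fin

/-!
# Multiplicative recurrences
-/

set_option autoImplicit false

open Module Filter

namespace Pool.Agent.X120.Fac

open Pool.Agent.Y916.Om Pool.Agent.Y916.Ari Pool.Agent.Y916.Al Pool.Agent.X120.Rec Pool.Agent.X120.Soft

/-- triangular families -/
theorem indep_tri {L : ℕ} (f : Fin L → (ℂ →₀ ℚ)) (π : Fin L → ℂ) (h1 : ∀ i, f i (π i) ≠ 0)
    (h2 : ∀ i j, i < j → f i (π j) = 0) : LinearIndependent ℚ f := by
  classical
  rw [Fintype.linearIndependent_iff]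
  intro c hc
  by_contra hcon
  push Not at hcon
  obtain ⟨i₀, hi₀⟩ := hcon
  set s : Finset (Fin L) := Finset.univ.filter fun i => c i ≠ 0 with hs
  have hsn : s.Nonempty := ⟨i₀, Finset.mem_filter.2 ⟨Finset.mem_univ _, hi₀⟩⟩
  set i := s.max' hsn with hi
  have him : c i ≠ 0 := (Finset.mem_filter.1 (s.max'_mem hsn)).2
  have h3 := DFunLike.congr_fun hc (π i)
  rw [Finsupp.finsetSum_apply, Finset.sum_eq_single i] at h3
  · rw [Finsupp.smul_apply, smul_eq_mul, Finsupp.zero_apply] at h3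
    exact (mul_ne_zero him (h1 i)) h3
  · intro j _ hj
    rw [Finsupp.smul_apply, smul_eq_mul]
    rcases lt_or_gt_of_ne hj with h | h
    · rw [h2 j i h, mul_zero]
    · have h4 : c j = 0 := by
        by_contra h5
        have h6 := s.le_max' j (Finset.mem_filter.2 ⟨Finset.mem_univ _, h5⟩)
        exact absurd h6 (not_le.2 h)
      rw [h4, zero_mul]
  · intro h
    exact absurd (Finset.mem_univ _) h

/-- the points `N + θ` -/
theorem pt_add (K : IntermediateField ℚ ℂ) [FiniteDimensional ℚ K] (θ : K) : ∃ C : ℕ, ∀ N : ℕ,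
    Pt K ((N : K) + θ) (C * ((N : ℝ) + 1)) := by
  obtain ⟨a, ha, hai⟩ := exists_den K {θ}
  obtain ⟨B, hB, hBσ⟩ := exists_bd K {θ}
  have haK : (a : K) ≠ 0 := by exact_mod_cast (by omega : a ≠ 0)
  refine ⟨a * B, fun N => ⟨(a : K) * ((N : K) + θ), a, ?_, ?_, haK, ?_, fun σ => ⟨?_, ?_⟩⟩⟩
  · rw [mul_add]
    refine IsIntegral.add ?_ (hai θ (Finset.mem_singleton_self _))
    have h1 : ((a : K) * (N : K)) = algebraMap ℤ K (a * N) := by
      rw [eq_intCast]
      push_cast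
      rfl
    rw [h1]
    exact isIntegral_algebraMap
  · have h1 : (a : K) = algebraMap ℤ K a := by
      rw [eq_intCast]
      push_cast
      rfl
    rw [h1]
    exact isIntegral_algebraMap
  · rw [mul_div_cancel_left₀ _ haK]
  · have h1 := hBσ θ (Finset.mem_singleton_self _) σ
    have hB1 : (1 : ℝ) ≤ B := by exact_mod_cast hB
    rw [map_mul, map_add, map_natCast, map_natCast, norm_mul, Complex.norm_natCast]
    push_cast
    have h2 : ‖(N : ℂ) + σ θ‖ ≤ N + B := (norm_add_le _ _).trans (by rw [Complex.norm_natCast]; linarith)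
    have h3 : (N : ℝ) + B ≤ B * (N + 1) := by
      have : (0 : ℝ) ≤ N := Nat.cast_nonneg N
      nlinarith
    calc (a : ℝ) * ‖(N : ℂ) + σ θ‖ ≤ a * (B * (N + 1)) := by gcongr; exact h2.trans h3
      _ = _ := by ring
  · rw [map_natCast, Complex.norm_natCast]
    push_cast
    have hB1 : (1 : ℝ) ≤ B := by exact_mod_cast hB
    have h2 : (0 : ℝ) ≤ N := Nat.cast_nonneg N
    have h3 : (0 : ℝ) ≤ a := Nat.cast_nonneg a
    have h4 : (1 : ℝ) ≤ B * (N + 1) := by nlinarith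
    calc (a : ℝ) = a * 1 := (mul_one _).symm
      _ ≤ a * (B * (N + 1)) := by gcongr
      _ = _ := by ring

/-- integer powers as exponentials -/
theorem exp_mul_log {v : ℂ} (e : ℤ) (h : v ≠ 0 ∨ e = 0) : Complex.exp ((e : ℂ) * Complex.log v) = v ^ e := by
  rcases h with h | h
  · rw [Complex.exp_int_mul, Complex.exp_log h]
  · subst h
    simp

/-- one step of the recurrence -/
theorem step {m q p : ℕ} {v : Fin (m + 1) → ℂ} (hv : ∀ i, v i ≠ 0) {γ : Fin p → ℂ} (hγ : ∀ j, γ j ≠ 0)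
    {f : Fin (q + 1) → ℂ} {c : Fin (m + 1) → ℤ} {a : Fin p → ℤ} {e : Fin (q + 1) → ℤ}
    (h : ∏ i, v i ^ c i = (∏ j, γ j ^ a j) * ∏ t, f t ^ e t) :
    (∀ t, f t ≠ 0 ∨ e t = 0) ∧ ∃ N : ℤ, ∑ i, (c i : ℂ) * Complex.log (v i) =
      ∑ j, (a j : ℂ) * Complex.log (γ j) + ∑ t, (e t : ℂ) * Complex.log (f t) + N * (2 * Real.pi * Complex.I) := by
  have h0 : ∏ i, v i ^ c i ≠ 0 := Finset.prod_ne_zero_iff.2 fun i _ => zpow_ne_zero _ (hv i)
  have hf : ∀ t, f t ≠ 0 ∨ e t = 0 := by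
    intro t
    by_contra hcon
    push Not at hcon
    apply h0
    rw [h, Finset.prod_eq_zero (Finset.mem_univ t) (by rw [hcon.1, zero_zpow _ hcon.2]), mul_zero]
  refine ⟨hf, ?_⟩
  have h1 : Complex.exp (∑ i, (c i : ℂ) * Complex.log (v i)) =
      Complex.exp (∑ j, (a j : ℂ) * Complex.log (γ j) + ∑ t, (e t : ℂ) * Complex.log (f t)) := by
    rw [Complex.exp_add, Complex.exp_sum, Complex.exp_sum, Complex.exp_sum,
      Finset.prod_congr rfl fun i _ => exp_mul_log (c i) (Or.inl (hv i)),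
      Finset.prod_congr rfl fun j _ => exp_mul_log (a j) (Or.inl (hγ j)),
      Finset.prod_congr rfl fun t _ => exp_mul_log (e t) (hf t), h]
  obtain ⟨N, hN⟩ := Complex.exp_eq_exp_iff_exists_int.1 h1
  exact ⟨N, hN⟩

end Pool.Agent.X120.Fac
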