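import Pool.Agent.X120.Fac.Rec

/-!
# Sequences with a multiplicative recurrence
-/

set_option autoImplicit false

open Module Filter

namespace Pool.Agent.X120.Fac

open Pool.Agent.Y916.Om Pool.Agent.Y916.Ari Pool.Agent.Y916.Al Pool.Agent.X120.Rec Pool.Agent.X120.Soft

/-- the numbers `log (1 + β / ξ)` with multiplicities -/
noncomputable def lc (ξ : ℂ) : (ℂ →₀ ℚ) →ₗ[ℚ] ℂ := Finsupp.linearCombination ℚ fun β => Complex.log (1 + β / ξ)

theorem lc_sum (ξ : ℂ) (D : ℂ →₀ ℚ) : lc ξ D = D.sum fun β c => (c : ℂ) * Complex.log (1 + β / ξ) := by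
  rw [lc, Finsupp.linearCombination_apply]
  refine Finsupp.sum_congr fun β _ => ?_
  rw [Rat.smul_def]

theorem log_add {ξ β : ℂ} (hξ : ξ ≠ 0) (hβ : ξ + β ≠ 0) :
    ∃ k : ℤ, Complex.log (ξ + β) = Complex.log ξ + Complex.log (1 + β / ξ) + k * (2 * Real.pi * Complex.I) := by
  have h1 : 1 + β / ξ = (ξ + β) / ξ := by
    field_simp
  have h2 : 1 + β / ξ ≠ 0 := by
    rw [h1]
    exact div_ne_zero hβ hξ
  refine Complex.exp_eq_exp_iff_exists_int.1 ?_
  rw [Complex.exp_add, Complex.exp_log hβ, Complex.exp_log hξ, Complex.exp_log h2, h1, mul_div_cancel₀ _ hξ]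

/-- the shifts up to `g` -/
noncomputable def Bs {q : ℕ} (z : Fin (q + 1) → ℂ) (g : ℕ) : Finset ℂ := by
  classical
  exact ((Finset.Icc 1 g ×ˢ (Finset.univ : Finset (Fin (q + 1)))).image fun p => (p.1 : ℂ) + (z p.2 - z 0)).erase 0

theorem Bs_mono {q : ℕ} (z : Fin (q + 1) → ℂ) {g g' : ℕ} (h : g ≤ g') : Bs z g ⊆ Bs z g' := by
  classical
  refine Finset.erase_subset_erase _ (Finset.image_subset_image (Finset.product_subset_product_left ?_))
  exact Finset.Icc_subset_Icc_right h

theorem notMem_Bs {q : ℕ} {z : Fin (q + 1) → ℂ} (hz0 : ∀ t, t ≠ 0 → ∀ i : ℕ, z t ≠ z 0 + i) {g g' : ℕ} (h : g' < g) :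
    (g : ℂ) ∉ Bs z g' := by
  classical
  intro hm
  obtain ⟨-, hm⟩ := Finset.mem_erase.1 hm
  obtain ⟨⟨a, t⟩, hat, hval⟩ := Finset.mem_image.1 hm
  obtain ⟨ha1, ha2⟩ := Finset.mem_Icc.1 (Finset.mem_product.1 hat).1
  simp only at hval ha1 ha2
  by_cases ht : t = 0
  · subst ht
    rw [sub_self, add_zero] at hval
    have : a = g := by exact_mod_cast hval
    omega
  · refine hz0 t ht (g - a) ?_
    rw [Nat.cast_sub (by omega)]
    linear_combination hval

section Key

variable {m q p : ℕ} (u : ℕ → ℂ) (γ : Fin p → ℂ) (z : Fin (q + 1) → ℂ) (n : ℕ)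

/-- the constants of the window with base point `n` -/
noncomputable def ws : Fin m ⊕ (Fin p ⊕ Bool) → ℂ :=
  Sum.elim (fun i => Complex.log (u (n - m + (i + 1)))) (Sum.elim (fun j => Complex.log (γ j))
    fun b => if b then Complex.log (((n - m : ℕ) : ℂ) + z 0) else 2 * Real.pi * Complex.I)

/-- the space of constants -/
noncomputable def W : Submodule ℚ ℂ := Submodule.span ℚ (Set.range (ws (m := m) u γ z n))

theorem key (hγ : ∀ j, γ j ≠ 0) (hz0 : ∀ t, t ≠ 0 → ∀ i : ℕ, z t ≠ z 0 + i) (n₀ : ℕ) (hu : ∀ n ≥ n₀, u n ≠ 0)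
    (hrec : ∀ n ≥ n₀, ∃ (c : Fin (m + 1) → ℤ) (a : Fin p → ℤ) (e : Fin (q + 1) → ℤ), c (Fin.last m) ≠ 0 ∧ e 0 ≠ 0 ∧
      ∏ i : Fin (m + 1), u (n + i) ^ c i = (∏ j, γ j ^ a j) * ∏ t, ((n : ℂ) + z t) ^ e t)
    (hn : n₀ + m ≤ n) (hξ : ((n - m : ℕ) : ℂ) + z 0 ≠ 0) (g : ℕ) (hg : 1 ≤ g) :
    ∃ D : ℂ →₀ ℚ, D.support ⊆ Bs z g ∧ D (g : ℂ) ≠ 0 ∧
      Complex.log (u (n + g)) - lc (((n - m : ℕ) : ℂ) + z 0) D ∈ W (m := m) u γ z n := by
  classical
  induction g using Nat.strong_induction_on with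
  | _ g ih =>
    set ξ : ℂ := ((n - m : ℕ) : ℂ) + z 0 with hξd
    set N := n + g - m with hN
    obtain ⟨c, a, e, hc, he, hprod⟩ := hrec N (by omega)
    obtain ⟨hf, k, hk⟩ := step (v := fun i : Fin (m + 1) => u (N + i)) (fun i => hu _ (by omega)) hγ hprod
    have hmem : ∀ o, ws (m := m) u γ z n o ∈ W (m := m) u γ z n := fun o => Submodule.subset_span ⟨o, rfl⟩
    have hpi : (2 * Real.pi * Complex.I : ℂ) ∈ W (m := m) u γ z n := by
      have := hmem (Sum.inr (Sum.inr false))
      simpa [ws] using this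
    have hlξ : Complex.log ξ ∈ W (m := m) u γ z n := by
      have := hmem (Sum.inr (Sum.inr true))
      simpa [ws] using this
    have hlγ : ∀ j, Complex.log (γ j) ∈ W (m := m) u γ z n := fun j => hmem (Sum.inr (Sum.inl j))
    have hint : ∀ (b : ℤ) (v : ℂ), v ∈ W (m := m) u γ z n → (b : ℂ) * v ∈ W (m := m) u γ z n := by
      intro b v hv
      have h1 : (b : ℂ) * v = (b : ℚ) • v := by
        rw [Rat.smul_def]
        push_cast
        rfl
      rw [h1]
      exact Submodule.smul_mem _ _ hv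
    -- the earlier terms
    have hprev : ∀ i : Fin m, ∃ D : ℂ →₀ ℚ, D.support ⊆ Bs z (g - 1) ∧
        Complex.log (u (N + i)) - lc ξ D ∈ W (m := m) u γ z n := by
      intro i
      by_cases hi : g + i ≤ m
      · refine ⟨0, by simp, ?_⟩
        rw [map_zero, sub_zero]
        have h1 := hmem (Sum.inl ⟨g + i - 1, by omega⟩)
        have h2 : ws (m := m) u γ z n (Sum.inl ⟨g + i - 1, by omega⟩) = Complex.log (u (N + i)) := by
          simp only [ws, Sum.elim_inl]
          congr 2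
          omega
        rwa [h2] at h1
      · have hi' : (i : ℕ) < m := i.2
        obtain ⟨D, hD1, -, hD2⟩ := ih (g + i - m) (by omega) (by omega)
        refine ⟨D, hD1.trans (Bs_mono z (by omega)), ?_⟩
        have h1 : n + (g + i - m) = N + i := by omega
        rwa [h1] at hD2
    choose Dp hDp1 hDp2 using hprev
    -- the factors
    have hfac : ∀ t, ∃ E : ℂ →₀ ℚ, E.support ⊆ Bs z g ∧ E (g : ℂ) = (if t = 0 then (e 0 : ℚ) else 0) ∧
        (e t : ℂ) * Complex.log ((N : ℂ) + z t) - lc ξ E ∈ W (m := m) u γ z n := by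
      intro t
      have hβ : (N : ℂ) + z t = ξ + ((g : ℂ) + (z t - z 0)) := by
        rw [hξd, hN, Nat.cast_sub (by omega), Nat.cast_sub (by omega)]
        push_cast
        ring
      have hmemB : (g : ℂ) + (z t - z 0) ≠ 0 → (g : ℂ) + (z t - z 0) ∈ Bs z g := fun h0 =>
        Finset.mem_erase.2 ⟨h0, Finset.mem_image.2 ⟨(g, t), Finset.mem_product.2
          ⟨Finset.mem_Icc.2 ⟨hg, le_rfl⟩, Finset.mem_univ _⟩, rfl⟩⟩
      have hg0 : (g : ℂ) ≠ 0 := by exact_mod_cast (by omega : g ≠ 0)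
      by_cases h0 : (g : ℂ) + (z t - z 0) = 0
      · have ht : t ≠ 0 := by
          rintro rfl
          rw [sub_self, add_zero] at h0
          exact hg0 h0
        refine ⟨0, by simp, by rw [if_neg ht]; rfl, ?_⟩
        rw [map_zero, sub_zero, hβ, h0, add_zero]
        exact hint _ _ hlξ
      · refine ⟨Finsupp.single ((g : ℂ) + (z t - z 0)) (e t : ℚ), ?_, ?_, ?_⟩
        · exact Finsupp.support_single_subset.trans (Finset.singleton_subset_iff.2 (hmemB h0))
        · by_cases ht : t = 0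
          · subst ht
            rw [if_pos rfl, sub_self, add_zero, Finsupp.single_eq_same]
          · rw [if_neg ht, Finsupp.single_apply, if_neg]
            intro h1
            refine hz0 t ht 0 ?_
            rw [Nat.cast_zero, add_zero]
            linear_combination h1
        · rw [lc, Finsupp.linearCombination_single, Rat.smul_def, Rat.cast_intCast, hβ]
          rcases hf t with h1 | h1
          · rw [hβ] at h1
            obtain ⟨j, hj⟩ := log_add hξ h1
            rw [hj]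
            have h2 : (e t : ℂ) * (Complex.log ξ + Complex.log (1 + (↑g + (z t - z 0)) / ξ) +
                j * (2 * Real.pi * Complex.I)) - (e t : ℂ) * Complex.log (1 + (↑g + (z t - z 0)) / ξ) =
                (e t : ℂ) * Complex.log ξ + (e t : ℂ) * (j * (2 * Real.pi * Complex.I)) := by ring
            rw [h2]
            exact Submodule.add_mem _ (hint _ _ hlξ) (hint _ _ (hint _ _ hpi))
          · rw [h1]
            simp
    choose E hE1 hE2 hE3 using hfac
    have hcQ : ((c (Fin.last m) : ℤ) : ℚ) ≠ 0 := by exact_mod_cast hc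
    have hcC : ((c (Fin.last m) : ℤ) : ℂ) ≠ 0 := by exact_mod_cast hc
    have hNm : N + (Fin.last m : ℕ) = n + g := by
      rw [Fin.val_last]
      omega
    refine ⟨((c (Fin.last m) : ℤ) : ℚ)⁻¹ • (∑ t, E t - ∑ i : Fin m, ((c i.castSucc : ℤ) : ℚ) • Dp i), ?_, ?_, ?_⟩
    · refine (Finsupp.support_smul).trans ?_
      intro β hβ
      by_contra hβB
      have h1 : ∀ t, E t β = 0 := fun t => by
        by_contra h2
        exact hβB (hE1 t (Finsupp.mem_support_iff.2 h2))
      have h2 : ∀ i, Dp i β = 0 := fun i => by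
        by_contra h3
        exact hβB (Bs_mono z (Nat.sub_le g 1) (hDp1 i (Finsupp.mem_support_iff.2 h3)))
      refine (Finsupp.mem_support_iff.1 hβ) ?_
      rw [Finsupp.sub_apply, Finsupp.finsetSum_apply, Finsupp.finsetSum_apply, Finset.sum_eq_zero fun t _ => h1 t,
        Finset.sum_eq_zero fun i _ => by rw [Finsupp.smul_apply, h2 i, smul_zero], sub_zero]
    · rw [Finsupp.smul_apply, Finsupp.sub_apply, Finsupp.finsetSum_apply, Finsupp.finsetSum_apply,
        Finset.sum_congr rfl fun t _ => hE2 t, Finset.sum_ite_eq' Finset.univ 0, if_pos (Finset.mem_univ _)]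
      have h2 : ∀ i, Dp i (g : ℂ) = 0 := fun i => by
        by_contra h3
        exact notMem_Bs hz0 (by omega : g - 1 < g) (hDp1 i (Finsupp.mem_support_iff.2 h3))
      rw [Finset.sum_eq_zero fun i _ => by rw [Finsupp.smul_apply, h2 i, smul_zero], sub_zero, smul_eq_mul]
      refine mul_ne_zero (inv_ne_zero hcQ) ?_
      exact_mod_cast he
    · have h1 : Complex.log (u (n + g)) - lc ξ (((c (Fin.last m) : ℤ) : ℚ)⁻¹ •
          (∑ t, E t - ∑ i : Fin m, ((c i.castSucc : ℤ) : ℚ) • Dp i)) = ((c (Fin.last m) : ℤ) : ℚ)⁻¹ •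
          (∑ j, (a j : ℂ) * Complex.log (γ j) + k * (2 * Real.pi * Complex.I) +
            ∑ t, ((e t : ℂ) * Complex.log ((N : ℂ) + z t) - lc ξ (E t)) -
            ∑ i : Fin m, (c i.castSucc : ℂ) * (Complex.log (u (N + i)) - lc ξ (Dp i))) := by
        rw [Fin.sum_univ_castSucc] at hk
        simp only [Fin.val_castSucc] at hk
        rw [hNm] at hk
        rw [map_smul, map_sub, map_sum, map_sum, Finset.sum_sub_distrib]
        simp only [mul_sub, Finset.sum_sub_distrib, map_smul, Rat.smul_def]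
        push_cast
        have h2 : ((c (Fin.last m) : ℤ) : ℂ)⁻¹ * ((c (Fin.last m) : ℤ) : ℂ) = 1 := inv_mul_cancel₀ hcC
        linear_combination ((c (Fin.last m) : ℤ) : ℂ)⁻¹ * hk - Complex.log (u (n + g)) * h2
      rw [h1]
      refine Submodule.smul_mem _ _ (Submodule.sub_mem _ (Submodule.add_mem _ (Submodule.add_mem _ ?_ ?_) ?_) ?_)
      · exact Submodule.sum_mem _ fun j _ => hint _ _ (hlγ j)
      · exact hint _ _ hpi
      · exact Submodule.sum_mem _ fun t _ => hE3 t
      · exact Submodule.sum_mem _ fun i _ => hint _ _ (hDp2 i)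

end Key

end Pool.Agent.X120.Fac
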